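import Pool.Agent.Helper65.BF.Ext

set_option autoImplicit false

/-! Existence of the profile of the Bessel extension for `s > 1`. -/

noncomputable section

namespace Pool.Agent.Helper65.BF

open Set MeasureTheory Filter Topology
open scoped ContDiff

/-- the kernel -/
def kk (c b u : ℝ) : ℝ := Real.exp (-u - c / u) * u ^ b

lemma kk_nonneg {c b u : ℝ} (hu : 0 < u) : 0 ≤ kk c b u :=
  mul_nonneg (Real.exp_pos _).le (Real.rpow_nonneg hu.le _)

lemma kk_meas (c b : ℝ) : Measurable (kk c b) := by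
  unfold kk
  fun_prop

/-- bound by a Gamma integrand -/
lemma kk_le0 {c b u : ℝ} (hc : 0 ≤ c) (hu : 0 < u) : kk c b u ≤ Real.exp (-u) * u ^ b := by
  unfold kk
  refine mul_le_mul_of_nonneg_right (Real.exp_le_exp.2 ?_) (Real.rpow_nonneg hu.le _)
  have := div_nonneg hc hu.le
  linarith

lemma exp_neg_div_le {c u : ℝ} (hc : 0 < c) (hu : 0 < u) (k : ℕ) :
    Real.exp (-(c / u)) ≤ (k.factorial : ℝ) / c ^ k * u ^ (k : ℝ) := by
  have h1 := Real.pow_div_factorial_le_exp (c / u) (by positivity) k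
  have h2 : 0 < (c / u) ^ k / k.factorial := by positivity
  rw [Real.exp_neg]
  calc (Real.exp (c / u))⁻¹ ≤ ((c / u) ^ k / k.factorial)⁻¹ := inv_anti₀ h2 h1
    _ = (k.factorial : ℝ) / c ^ k * u ^ (k : ℝ) := by
      rw [Real.rpow_natCast, div_pow]
      field_simp

lemma kk_le {c b u : ℝ} (hc : 0 < c) (hu : 0 < u) (k : ℕ) :
    kk c b u ≤ (k.factorial : ℝ) / c ^ k * (Real.exp (-u) * u ^ (b + k)) := by
  unfold kk
  rw [sub_eq_add_neg, Real.exp_add, Real.rpow_add hu]
  have h1 := exp_neg_div_le hc hu k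
  have h2 := Real.exp_pos (-u)
  have h3 := Real.rpow_nonneg hu.le b
  calc Real.exp (-u) * Real.exp (-(c / u)) * u ^ b
      = (Real.exp (-u) * u ^ b) * Real.exp (-(c / u)) := by ring
    _ ≤ (Real.exp (-u) * u ^ b) * ((k.factorial : ℝ) / c ^ k * u ^ (k : ℝ)) :=
        mul_le_mul_of_nonneg_left h1 (by positivity)
    _ = _ := by ring

lemma gam {b : ℝ} (hb : -1 < b) : IntegrableOn (fun u : ℝ => Real.exp (-u) * u ^ b) (Ioi 0) := by
  have h := Real.GammaIntegral_convergent (s := b + 1) (by linarith)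
  simpa using h

lemma kk_int0 {c b : ℝ} (hc : 0 ≤ c) (hb : -1 < b) : IntegrableOn (kk c b) (Ioi 0) := by
  refine (gam hb).mono' (kk_meas c b).aestronglyMeasurable ?_
  refine (ae_restrict_iff' measurableSet_Ioi).2 (ae_of_all _ fun u hu => ?_)
  rw [Real.norm_of_nonneg (kk_nonneg hu)]
  exact kk_le0 hc hu

lemma kk_int {c : ℝ} (b : ℝ) (hc : 0 < c) : IntegrableOn (kk c b) (Ioi 0) := by
  obtain ⟨k, hk⟩ := exists_nat_gt (-1 - b)
  refine ((gam (b := b + k) (by linarith)).const_mul ((k.factorial : ℝ) / c ^ k)).mono'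
    (kk_meas c b).aestronglyMeasurable ?_
  refine (ae_restrict_iff' measurableSet_Ioi).2 (ae_of_all _ fun u hu => ?_)
  rw [Real.norm_of_nonneg (kk_nonneg hu)]
  exact kk_le hc hu k

/-- the integral -/
def II (a r : ℝ) : ℝ := ∫ u in Ioi (0 : ℝ), kk (r ^ 2 / 4) (a - 1) u

lemma kk_deriv_r {a u r : ℝ} (hu : 0 < u) :
    HasDerivAt (fun r : ℝ => kk (r ^ 2 / 4) (a - 1) u) (-(r / 2) * kk (r ^ 2 / 4) (a - 2) u) r := by
  unfold kk
  have h1 : HasDerivAt (fun r : ℝ => -u - r ^ 2 / 4 / u) (-(2 * r / 4 / u)) r := by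
    have := (((hasDerivAt_pow 2 r).div_const 4).div_const u).const_sub (-u)
    simpa using this
  have h2 := (h1.exp).mul_const (u ^ (a - 1))
  refine h2.congr_deriv ?_
  have h3 : u ^ (a - 1) = u ^ (a - 2) * u := by
    rw [← Real.rpow_add_one hu.ne']
    congr 1
    ring
  rw [h3]
  field_simp
  ring

lemma hasDerivAt_II (a : ℝ) {r : ℝ} (hr : 0 < r) :
    HasDerivAt (II a) (-(r / 2) * II (a - 1) r) r := by
  have hpos : ∀ x ∈ Ioo (r / 2) (2 * r), 0 < x := fun x hx => by linarith [hx.1]
  have key := hasDerivAt_integral_of_dominated_loc_of_deriv_le (𝕜 := ℝ)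
    (μ := volume.restrict (Ioi (0 : ℝ)))
    (F := fun r u => kk (r ^ 2 / 4) (a - 1) u)
    (F' := fun r u => -(r / 2) * kk (r ^ 2 / 4) (a - 2) u)
    (x₀ := r) (s := Ioo (r / 2) (2 * r))
    (bound := fun u => r * kk ((r / 2) ^ 2 / 4) (a - 2) u)
    (Ioo_mem_nhds (by linarith) (by linarith))
    (Eventually.of_forall fun x => (kk_meas _ _).aestronglyMeasurable)
    (kk_int _ (by positivity))
    ((kk_meas _ _).const_mul _).aestronglyMeasurable
    ((ae_restrict_iff' measurableSet_Ioi).2 (ae_of_all _ fun u hu x hx => by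
      have hx0 := hpos x hx
      have hu' : 0 < u := hu
      rw [norm_mul, norm_neg, Real.norm_of_nonneg (by positivity : 0 ≤ x / 2),
        Real.norm_of_nonneg (kk_nonneg hu')]
      refine mul_le_mul (by linarith [hx.2]) ?_ (kk_nonneg hu') hr.le
      unfold kk
      refine mul_le_mul_of_nonneg_right (Real.exp_le_exp.2 ?_) (Real.rpow_nonneg hu'.le _)
      have h1 : (r / 2) ^ 2 / 4 / u ≤ x ^ 2 / 4 / u := by
        have := hx.1
        gcongr
      linarith))
    ((kk_int _ (by positivity)).const_mul _)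
    ((ae_restrict_iff' measurableSet_Ioi).2 (ae_of_all _ fun u hu x hx => kk_deriv_r hu))
  have h2 := key.2
  refine h2.congr_deriv ?_
  rw [integral_const_mul, II]
  congr 2
  funext u
  congr 1
  ring

/-- integration by parts -/
lemma II_rec (a : ℝ) {r : ℝ} (hr : 0 < r) :
    II (a + 1) r = r ^ 2 / 4 * II (a - 1) r + a * II a r := by
  have hc : 0 < r ^ 2 / 4 := by positivity
  set c := r ^ 2 / 4 with hcdef
  have i1 := kk_int a hc
  have i2 := kk_int (a - 1) hc
  have i3 := kk_int (a - 2) hc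
  have key := integral_Ioi_mul_deriv_eq_deriv_mul (a := 0) (a' := 0) (b' := 0)
    (u := fun u : ℝ => Real.exp (-u - c / u)) (v := fun u : ℝ => u ^ a)
    (u' := fun u : ℝ => Real.exp (-u - c / u) * (-1 + c / u ^ 2))
    (v' := fun u : ℝ => a * u ^ (a - 1)) ?_ ?_ ?_ ?_ ?_ ?_
  · have e1 : ∫ x in Ioi (0 : ℝ), Real.exp (-x - c / x) * (a * x ^ (a - 1)) = a * II a r := by
      rw [II, ← integral_const_mul]
      congr 1
      funext x
      simp only [kk]
      ring
    have e2 : ∫ x in Ioi (0 : ℝ), Real.exp (-x - c / x) * (-1 + c / x ^ 2) * x ^ a =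
        -II (a + 1) r + c * II (a - 1) r := by
      have h1 : II (a + 1) r = ∫ x in Ioi (0 : ℝ), kk c a x := by
        rw [II, ← hcdef, show a + 1 - 1 = a by ring]
      have h2 : II (a - 1) r = ∫ x in Ioi (0 : ℝ), kk c (a - 2) x := by
        rw [II, ← hcdef, show a - 1 - 1 = a - 2 by ring]
      rw [h1, h2, ← integral_const_mul, ← integral_neg,
        ← integral_add (f := fun x => -kk c a x) (g := fun x => c * kk c (a - 2) x) i1.neg
          (i3.const_mul c)]
      refine setIntegral_congr_fun measurableSet_Ioi fun x hx => ?_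
      have hx' : (0 : ℝ) < x := hx
      have h3 : x ^ a = x ^ (a - 2) * x ^ 2 := by
        rw [← Real.rpow_natCast x 2, ← Real.rpow_add hx']
        congr 1
        push_cast
        ring
      simp only [kk, h3]
      field_simp
    rw [e1, e2] at key
    linarith
  · intro x hx
    have hx' : (0 : ℝ) < x := hx
    have h1 : HasDerivAt (fun u : ℝ => -u - c / u) (-1 + c / x ^ 2) x := by
      have h2 := (hasDerivAt_id x).neg.sub ((hasDerivAt_inv hx'.ne').const_mul c)
      refine (h2.congr_deriv ?_).congr_of_eventuallyEq (Eventually.of_forall fun u => ?_)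
      · field_simp
        ring
      · simp [div_eq_mul_inv]
    exact h1.exp
  · intro x hx
    have hx' : (0 : ℝ) < x := hx
    exact Real.hasDerivAt_rpow_const (Or.inl hx'.ne')
  · have j2 : IntegrableOn (fun x => a * kk c (a - 1) x) (Ioi 0) := i2.const_mul a
    refine j2.congr_fun (fun x hx => ?_) measurableSet_Ioi
    simp only [kk, Pi.mul_apply]
    ring
  · have j2 : IntegrableOn (fun x => -kk c a x + c * kk c (a - 2) x) (Ioi 0) :=
      i1.neg.add (i3.const_mul c)
    refine j2.congr_fun (fun x hx => ?_) measurableSet_Ioi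
    have hx' : (0 : ℝ) < x := hx
    have h3 : x ^ a = x ^ (a - 2) * x ^ 2 := by
      rw [← Real.rpow_natCast x 2, ← Real.rpow_add hx']
      congr 1
      push_cast
      ring
    simp only [kk, Pi.mul_apply, h3]
    field_simp
  · obtain ⟨k, hk⟩ := exists_nat_gt (-a)
    have h1 : Tendsto (fun x : ℝ => (k.factorial : ℝ) / c ^ k * (Real.exp (-x) * x ^ (a + k)))
        (𝓝[>] 0) (𝓝 ((k.factorial : ℝ) / c ^ k * (Real.exp (-0) * (0 : ℝ) ^ (a + k)))) := by
      refine Tendsto.const_mul _ (Tendsto.mul ?_ ?_)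
      · exact ((Real.continuous_exp.comp continuous_neg).tendsto 0).mono_left nhdsWithin_le_nhds
      · exact ((Real.continuousAt_rpow_const 0 (a + k) (Or.inr (by linarith))).tendsto).mono_left
          nhdsWithin_le_nhds
    rw [Real.zero_rpow (by linarith), mul_zero, mul_zero] at h1
    refine squeeze_zero' ?_ ?_ h1
    · filter_upwards [self_mem_nhdsWithin] with x hx
      exact kk_nonneg (c := c) (b := a) hx
    · filter_upwards [self_mem_nhdsWithin] with x hx
      exact kk_le (b := a) hc hx k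
  · have h1 := tendsto_rpow_mul_exp_neg_mul_atTop_nhds_zero a 1 one_pos
    refine squeeze_zero' ?_ ?_ h1
    · filter_upwards [eventually_gt_atTop 0] with x hx
      exact kk_nonneg (c := c) (b := a) hx
    · filter_upwards [eventually_gt_atTop 0] with x hx
      have := kk_le0 (b := a) hc.le hx
      rw [mul_comm (Real.exp (-x))] at this
      simpa [kk, neg_mul, one_mul] using this

/-- smoothness -/
lemma contDiffOn_II_nat (n : ℕ) : ∀ a : ℝ, ContDiffOn ℝ n (II a) (Ioi 0) := by
  induction n with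
  | zero =>
    intro a
    rw [Nat.cast_zero, contDiffOn_zero]
    exact fun r hr => (hasDerivAt_II a hr).continuousAt.continuousWithinAt
  | succ n ih =>
    intro a
    push_cast
    rw [contDiffOn_succ_iff_deriv_of_isOpen isOpen_Ioi]
    refine ⟨fun r hr => (hasDerivAt_II a hr).differentiableAt.differentiableWithinAt, by simp, ?_⟩
    have h1 : ContDiffOn ℝ n (fun r : ℝ => -(r / 2) * II (a - 1) r) (Ioi 0) :=
      (by fun_prop : ContDiffOn ℝ n (fun r : ℝ => -(r / 2)) (Ioi 0)).mul (ih (a - 1))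
    exact h1.congr fun r hr => (hasDerivAt_II a hr).deriv

lemma contDiffOn_II (a : ℝ) : ContDiffOn ℝ ∞ (II a) (Ioi 0) :=
  contDiffOn_infty.2 fun n => contDiffOn_II_nat n a

lemma continuous_II {a : ℝ} (ha : 0 < a) : Continuous (II a) := by
  unfold II
  refine continuous_of_dominated (bound := fun u => Real.exp (-u) * u ^ (a - 1))
    (fun r => (kk_meas _ _).aestronglyMeasurable) (fun r => ?_) (gam (by linarith)) ?_
  · refine (ae_restrict_iff' measurableSet_Ioi).2 (ae_of_all _ fun u hu => ?_)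
    rw [Real.norm_of_nonneg (kk_nonneg hu)]
    exact kk_le0 (by positivity) hu
  · refine ae_of_all _ fun u => ?_
    unfold kk
    fun_prop

lemma II_zero {a : ℝ} (ha : 0 < a) : II a 0 = Real.Gamma a := by
  rw [Real.Gamma_eq_integral ha, II]
  congr 1
  funext u
  simp [kk]

lemma II_nonneg (a r : ℝ) : 0 ≤ II a r := by
  unfold II
  exact setIntegral_nonneg measurableSet_Ioi fun u hu => kk_nonneg hu

lemma II_dec {a : ℝ} (ha : 0 < a) (r : ℝ) :
    II a r ≤ (∫ u in Ioi (0 : ℝ), Real.exp (-(1 / 2 * u)) * u ^ (a - 1)) *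
      Real.exp (-(2 / 3 * r)) := by
  have hint : IntegrableOn (fun u : ℝ => Real.exp (-(1 / 2 * u)) * u ^ (a - 1)) (Ioi 0) := by
    have h := integrableOn_rpow_mul_exp_neg_mul_rpow (s := a - 1) (p := 1) (b := 1 / 2)
      (by linarith) one_pos (by norm_num)
    refine h.congr_fun (fun u hu => ?_) measurableSet_Ioi
    simp only [Real.rpow_one]
    rw [mul_comm]
    congr 2
    ring
  rw [← integral_mul_const]
  unfold II
  refine setIntegral_mono_on (kk_int0 (by positivity) (by linarith)) (hint.mul_const _)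
    measurableSet_Ioi fun u hu => ?_
  have hu' : (0 : ℝ) < u := hu
  have e : Real.exp (-(1 / 2 * u)) * u ^ (a - 1) * Real.exp (-(2 / 3 * r)) =
      Real.exp (-(1 / 2 * u) + -(2 / 3 * r)) * u ^ (a - 1) := by
    rw [Real.exp_add]
    ring
  rw [e]
  unfold kk
  refine mul_le_mul_of_nonneg_right (Real.exp_le_exp.2 ?_) (Real.rpow_nonneg hu'.le _)
  have h1 : 0 ≤ 1 / 2 * u + r ^ 2 / 4 / u - 2 / 3 * r := by
    have h2 : 1 / 2 * u + r ^ 2 / 4 / u - 2 / 3 * r = (6 * u ^ 2 + 3 * r ^ 2 - 8 * r * u) / (12 * u) := by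
      field_simp
      ring
    rw [h2]
    apply div_nonneg _ (by positivity)
    nlinarith [sq_nonneg (3 * r - 4 * u), sq_nonneg u]
  linarith

/-- the profile -/
def ph (s r : ℝ) : ℝ := II s r / Real.Gamma s

/-- its Euler derivative -/
def ps (s r : ℝ) : ℝ := -(r ^ 2 / 2) * II (s - 1) r / Real.Gamma s

theorem ext_exists (s : ℝ) (hs : 1 < s) : Ext s (ph s) (ps s) := by
  have hG : 0 < Real.Gamma s := Real.Gamma_pos_of_pos (by linarith)
  refine ⟨?_, ?_, ?_, ?_, ?_, ?_, ?_, ?_, ?_⟩
  · rw [ph, II_zero (by linarith)]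
    exact div_self hG.ne'
  · simp [ps]
  · exact ((continuous_II (by linarith)).div_const _).continuousOn
  · have h1 : Continuous fun r : ℝ => -(r ^ 2 / 2) * II (s - 1) r / Real.Gamma s :=
      ((by fun_prop : Continuous fun r : ℝ => -(r ^ 2 / 2)).mul
        (continuous_II (by linarith))).div_const _
    exact h1.continuousOn
  · intro r hr
    have h1 := (hasDerivAt_II s hr).div_const (Real.Gamma s)
    refine h1.congr_deriv ?_
    unfold ps
    field_simp
  · intro r hr
    have h1 := ((((hasDerivAt_pow 2 r).div_const 2).neg).mul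
      (hasDerivAt_II (s - 1) hr)).div_const (Real.Gamma s)
    refine h1.congr_deriv ?_
    have h2 := II_rec (s - 1) hr
    rw [sub_add_cancel] at h2
    unfold ps ph
    rw [h2]
    simp only [Pi.neg_apply]
    field_simp
    push_cast
    ring
  · exact (contDiffOn_II s).div_const _
  · have h1 : ContDiffOn ℝ ∞ (fun r : ℝ => -(r ^ 2 / 2) * II (s - 1) r / Real.Gamma s) (Ioi 0) :=
      (((by fun_prop : ContDiffOn ℝ ∞ (fun r : ℝ => -(r ^ 2 / 2)) (Ioi 0))).mul
        (contDiffOn_II (s - 1))).div_const _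
    exact h1
  · set A := ∫ u in Ioi (0 : ℝ), Real.exp (-(1 / 2 * u)) * u ^ (s - 1) with hA
    set B := ∫ u in Ioi (0 : ℝ), Real.exp (-(1 / 2 * u)) * u ^ (s - 1 - 1) with hB
    have hA0 : 0 ≤ A := setIntegral_nonneg measurableSet_Ioi fun u hu =>
      mul_nonneg (Real.exp_pos _).le (Real.rpow_nonneg (le_of_lt hu) _)
    have hB0 : 0 ≤ B := setIntegral_nonneg measurableSet_Ioi fun u hu =>
      mul_nonneg (Real.exp_pos _).le (Real.rpow_nonneg (le_of_lt hu) _)
    refine ⟨(A + 36 * B) / Real.Gamma s, by positivity, fun r hr => ⟨?_, ?_⟩⟩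
    · rw [ph, abs_of_nonneg (div_nonneg (II_nonneg _ _) hG.le)]
      rw [div_mul_eq_mul_div]
      refine div_le_div_of_nonneg_right ?_ hG.le
      have h1 := II_dec (a := s) (by linarith) r
      have h2 : Real.exp (-(2 / 3 * r)) ≤ Real.exp (-(r / 2)) := Real.exp_le_exp.2 (by linarith)
      calc II s r ≤ A * Real.exp (-(2 / 3 * r)) := h1
        _ ≤ A * Real.exp (-(r / 2)) := mul_le_mul_of_nonneg_left h2 hA0
        _ ≤ (A + 36 * B) * Real.exp (-(r / 2)) := by
          have := mul_nonneg hB0 (Real.exp_pos (-(r / 2))).le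
          nlinarith
    · have h0 : |ps s r| = r ^ 2 / 2 * II (s - 1) r / Real.Gamma s := by
        rw [ps, abs_div, abs_mul, abs_neg, abs_of_nonneg (by positivity : 0 ≤ r ^ 2 / 2),
          abs_of_nonneg (II_nonneg _ _), abs_of_pos hG]
      have h00 : (A + 36 * B) / Real.Gamma s * Real.exp (-(r / 2)) =
        (A + 36 * B) * Real.exp (-(r / 2)) / Real.Gamma s := by ring
      rw [h0, h00]
      refine div_le_div_of_nonneg_right ?_ hG.le
      have h1 := II_dec (a := s - 1) (by linarith) r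
      have h3 : r ^ 2 / 2 ≤ 36 * Real.exp (r / 6) := by
        have := Real.pow_div_factorial_le_exp (r / 6) (by positivity) 2
        norm_num [Nat.factorial] at this
        nlinarith
      have h4 : Real.exp (r / 6) * Real.exp (-(2 / 3 * r)) = Real.exp (-(r / 2)) := by
        rw [← Real.exp_add]
        congr 1
        ring
      calc r ^ 2 / 2 * II (s - 1) r
          ≤ 36 * Real.exp (r / 6) * (B * Real.exp (-(2 / 3 * r))) :=
            mul_le_mul h3 h1 (II_nonneg _ _) (by positivity)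
        _ = 36 * B * (Real.exp (r / 6) * Real.exp (-(2 / 3 * r))) := by ring
        _ = 36 * B * Real.exp (-(r / 2)) := by rw [h4]
        _ ≤ (A + 36 * B) * Real.exp (-(r / 2)) := by
          have := mul_nonneg hA0 (Real.exp_pos (-(r / 2))).le
          nlinarith

end Pool.Agent.Helper65.BF
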