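import Mathlib

set_option autoImplicit false

/-! Interface of the Bessel (Caffarelli-Silvestre) extension: `φ(t|ξ|)` is the symbol of the extension
to height `t`, `ψ = t φ_t`. -/

namespace Pool.Agent.Helper65.BF

open Set
open scoped ContDiff

/-- the profile of the extension with parameter `s` -/
structure Ext (s : ℝ) (φ ψ : ℝ → ℝ) : Prop where
  z0 : φ 0 = 1
  z1 : ψ 0 = 0
  c0 : ContinuousOn φ (Ici 0)
  c1 : ContinuousOn ψ (Ici 0)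
  d0 : ∀ r : ℝ, 0 < r → HasDerivAt φ (ψ r / r) r
  d1 : ∀ r : ℝ, 0 < r → HasDerivAt ψ ((2 * s * ψ r + r ^ 2 * φ r) / r) r
  s0 : ContDiffOn ℝ ∞ φ (Ioi 0)
  s1 : ContDiffOn ℝ ∞ ψ (Ioi 0)
  dec : ∃ C : ℝ, 0 ≤ C ∧ ∀ r : ℝ, 0 ≤ r →
    |φ r| ≤ C * Real.exp (-(r / 2)) ∧ |ψ r| ≤ C * Real.exp (-(r / 2))

end Pool.Agent.Helper65.BF
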